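import Mathlib

/-!
# Non-adaptive triple queries for a non-minority ball, even number of balls

For every even `n ≥ 4` the set of all triples that do not contain a fixed pair of balls determines
a non-minority ball. Its minimum co-degree is `0`; so `m(n) = 0` for all even `n ≥ 4`.
-/

open Finset

namespace Pool.Agent.Results.MP_d92cd9_co.EvenZero

/-- `b` is a non-minority ball of the colouring `c`: at least `n / 2` balls have the colour
of `b`. -/
def NonMinority {n : ℕ} (c : Fin n → Bool) (b : Fin n) : Prop :=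
  (n : ℝ) / 2 ≤ (univ.filter (fun x => c x = c b)).card

/-- `a` is a valid answer to the query `T`: the colour of `a ∈ T` is shared by another ball
of `T`. -/
def ValidAnswer {n : ℕ} (c : Fin n → Bool) (T : Finset (Fin n)) (a : Fin n) : Prop :=
  a ∈ T ∧ ∃ b ∈ T, b ≠ a ∧ c b = c a

/-- A non-adaptive query set: a set of triples of balls. -/
def IsQuerySet {n : ℕ} (Q : Finset (Finset (Fin n))) : Prop := ∀ T ∈ Q, T.card = 3

/-- `Q` determines a non-minority ball: some map `f` from answer functions to balls gives a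
non-minority ball of `c` for every colouring `c` and every answer function valid for `c`. -/
def Determines {n : ℕ} (Q : Finset (Finset (Fin n))) : Prop :=
  ∃ f : ((T : Finset (Fin n)) → T ∈ Q → Fin n) → Fin n,
    ∀ (c : Fin n → Bool) (α : (T : Finset (Fin n)) → T ∈ Q → Fin n),
      (∀ T (hT : T ∈ Q), ValidAnswer c T (α T hT)) → NonMinority c (f α)

/-- The co-degree of two balls: the number of the queries that contain both. -/
def coDegree {n : ℕ} (Q : Finset (Finset (Fin n))) (x y : Fin n) : ℕ :=
  (Q.filter (fun T => x ∈ T ∧ y ∈ T)).card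

/-- The minimum co-degree of two distinct balls. -/
noncomputable def minCoDegree {n : ℕ} (Q : Finset (Finset (Fin n))) : ℕ :=
  sInf {d | ∃ x y : Fin n, x ≠ y ∧ coDegree Q x y = d}

/-- `m(n)`: the least `minCoDegree Q` over all query sets `Q` that determine a non-minority
ball. -/
noncomputable def m (n : ℕ) : ℕ :=
  sInf {d | ∃ Q : Finset (Finset (Fin n)), IsQuerySet Q ∧ Determines Q ∧ minCoDegree Q = d}

/-- the set of the balls that are in the minority -/
noncomputable def mino {n : ℕ} (c : Fin n → Bool) : Finset (Fin n) :=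
  univ.filter (fun b => 2 * (univ.filter (fun x => c x = c b)).card < n)

lemma mem_mino {n : ℕ} (c : Fin n → Bool) (b : Fin n) :
    b ∈ mino c ↔ 2 * (univ.filter (fun x => c x = c b)).card < n := by simp [mino]

lemma not_nonMinority {n : ℕ} (c : Fin n → Bool) (b : Fin n) :
    ¬ NonMinority c b ↔ b ∈ mino c := by
  rw [mem_mino]
  unfold NonMinority
  rw [not_le, lt_div_iff₀ (by norm_num)]
  constructor
  · intro h
    have : (((univ.filter (fun x => c x = c b)).card * 2 : ℕ) : ℝ) < (n : ℕ) := by
      push_cast; exact h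
    have := Nat.cast_lt.1 this
    omega
  · intro h
    have : (((univ.filter (fun x => c x = c b)).card * 2 : ℕ) : ℝ) < (n : ℕ) := by
      apply Nat.cast_lt.2; omega
    push_cast at this
    exact this

/-- A ball outside of the minority has another colour than the balls of the minority. -/
lemma colour_ne {n : ℕ} (c : Fin n → Bool) {b x : Fin n} (hb : b ∈ mino c) (hx : x ∉ mino c) :
    c x ≠ c b := by
  intro h
  apply hx
  rw [mem_mino] at hb ⊢
  rw [h]
  exact hb

/-- The size of the minority. -/
lemma card_mino {n : ℕ} (hn : Even n) (hn0 : 2 ≤ n) (c : Fin n → Bool) :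
    2 * (mino c).card + 2 ≤ n := by
  rcases (mino c).eq_empty_or_nonempty with h | ⟨b, hb⟩
  · rw [h]; simpa using hn0
  · have hsub : mino c ⊆ univ.filter (fun x => c x = c b) := by
      intro x hx
      simp only [mem_filter, mem_univ, true_and]
      by_contra hne
      rw [mem_mino] at hb hx
      have h1 := card_filter_add_card_filter_not (s := (univ : Finset (Fin n)))
        (fun y => c y = c b)
      have h2 : (univ.filter (fun y => ¬ c y = c b)) = univ.filter (fun y => c y = c x) := by
        apply filter_congr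
        intro y _
        cases h3 : c y <;> cases h4 : c b <;> cases h5 : c x <;> simp_all
      rw [h2] at h1
      simp only [card_univ, Fintype.card_fin] at h1
      omega
    have h1 := card_le_card hsub
    rw [mem_mino] at hb
    obtain ⟨k, hk⟩ := hn
    omega

theorem determines {n : ℕ} (hn : Even n) (hn4 : 4 ≤ n) (x y : Fin n) (hxy : x ≠ y) :
    Determines (univ.filter (fun T : Finset (Fin n) => T.card = 3 ∧ ¬ (x ∈ T ∧ y ∈ T))) := by
  classical
  set Q := univ.filter (fun T : Finset (Fin n) => T.card = 3 ∧ ¬ (x ∈ T ∧ y ∈ T)) with hQ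
  have key : ∀ α : ((T : Finset (Fin n)) → T ∈ Q → Fin n), ∃ b, ∀ c : Fin n → Bool,
      (∀ T (hT : T ∈ Q), ValidAnswer c T (α T hT)) → NonMinority c b := by
    intro α
    by_contra hcon
    push Not at hcon
    let F : Finset (Fin n → Bool) :=
      univ.filter (fun c => ∀ T (hT : T ∈ Q), ValidAnswer c T (α T hT))
    let Cov : Finset (Fin n → Bool) → Prop := fun S => ∀ b, ∃ c ∈ S, b ∈ mino c
    have hF : Cov F := by
      intro b
      obtain ⟨c, hc, hb⟩ := hcon b
      exact ⟨c, by simpa [F] using hc, (not_nonMinority c b).1 hb⟩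
    obtain ⟨S, hSF, hS⟩ := exists_minimal_le_of_wellFoundedLT Cov F hF
    have hval : ∀ c ∈ S, ∀ T (hT : T ∈ Q), ValidAnswer c T (α T hT) := by
      intro c hc
      have := hSF hc
      simpa [F] using this
    -- private balls
    let Pr : (Fin n → Bool) → Fin n → Prop := fun c b => b ∈ mino c ∧ ∀ c' ∈ S, c' ≠ c → b ∉ mino c'
    have hpriv : ∀ c ∈ S, ∃ b, Pr c b := by
      intro c hc
      by_contra hno
      push Not at hno
      have hcov : Cov (S.erase c) := by
        intro b
        obtain ⟨c', hc', hb⟩ := hS.prop b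
        by_cases h : c' = c
        · subst h
          have := hno b
          simp only [Pr] at this
          push Not at this
          obtain ⟨c'', h1, h2, h3⟩ := this hb
          exact ⟨c'', mem_erase.2 ⟨h2, h1⟩, h3⟩
        · exact ⟨c', mem_erase.2 ⟨h, hc'⟩, hb⟩
      have := hS.le_of_le hcov (erase_subset _ _)
      exact (notMem_erase c S) (this hc)
    choose p hp using hpriv
    have hne : ∀ c ∈ S, ∀ c' ∈ S, c ≠ c' → ∀ b b', Pr c b → Pr c' b' → b ≠ b' := by
      intro c hc c' hc' hcc b b' hb hb' he
      subst he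
      exact hb'.2 c hc hcc hb.1
    -- the triple of three private balls is not a query
    have htri : ∀ c1 ∈ S, ∀ c2 ∈ S, ∀ c3 ∈ S, c1 ≠ c2 → c1 ≠ c3 → c2 ≠ c3 → ∀ b1 b2 b3,
        Pr c1 b1 → Pr c2 b2 → Pr c3 b3 →
        (x = b1 ∨ x = b2 ∨ x = b3) ∧ (y = b1 ∨ y = b2 ∨ y = b3) := by
      intro c1 h1 c2 h2 c3 h3 h12 h13 h23 b1 b2 b3 hb1 hb2 hb3
      have d12 := hne c1 h1 c2 h2 h12 b1 b2 hb1 hb2
      have d13 := hne c1 h1 c3 h3 h13 b1 b3 hb1 hb3
      have d23 := hne c2 h2 c3 h3 h23 b2 b3 hb2 hb3
      have hcard : ({b1, b2, b3} : Finset (Fin n)).card = 3 := card_eq_three.2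
        ⟨b1, b2, b3, d12, d13, d23, rfl⟩
      have hnotQ : ({b1, b2, b3} : Finset (Fin n)) ∉ Q := by
        intro hT
        have v1 := hval c1 h1 _ hT
        have v2 := hval c2 h2 _ hT
        have v3 := hval c3 h3 _ hT
        generalize α _ hT = a at v1 v2 v3
        have ha := v1.1
        simp only [mem_insert, mem_singleton] at ha
        -- the colours
        have n12 := colour_ne c1 hb1.1 (hb2.2 c1 h1 h12)
        have n13 := colour_ne c1 hb1.1 (hb3.2 c1 h1 h13)
        have n21 := colour_ne c2 hb2.1 (hb1.2 c2 h2 h12.symm)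
        have n23 := colour_ne c2 hb2.1 (hb3.2 c2 h2 h23)
        have n31 := colour_ne c3 hb3.1 (hb1.2 c3 h3 h13.symm)
        have n32 := colour_ne c3 hb3.1 (hb2.2 c3 h3 h23.symm)
        rcases ha with rfl | rfl | rfl
        · obtain ⟨b, hb, hba, hcb⟩ := v1.2
          simp only [mem_insert, mem_singleton] at hb
          rcases hb with rfl | rfl | rfl
          · exact hba rfl
          · exact n12 hcb
          · exact n13 hcb
        · obtain ⟨b, hb, hba, hcb⟩ := v2.2
          simp only [mem_insert, mem_singleton] at hb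
          rcases hb with rfl | rfl | rfl
          · exact n21 hcb
          · exact hba rfl
          · exact n23 hcb
        · obtain ⟨b, hb, hba, hcb⟩ := v3.2
          simp only [mem_insert, mem_singleton] at hb
          rcases hb with rfl | rfl | rfl
          · exact n31 hcb
          · exact n32 hcb
          · exact hba rfl
      have : x ∈ ({b1, b2, b3} : Finset (Fin n)) ∧ y ∈ ({b1, b2, b3} : Finset (Fin n)) := by
        by_contra h
        exact hnotQ (mem_filter.2 ⟨mem_univ _, hcard, h⟩)
      simpa using this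
    -- at least three colourings
    have hmc := fun c => card_mino hn (by omega) c
    have hcov : ∀ S' : Finset (Fin n → Bool), (∀ b, ∃ c ∈ S', b ∈ mino c) →
        2 * n ≤ S'.card * (n - 2) := by
      intro S' h
      have h1 : (univ : Finset (Fin n)) ⊆ S'.biUnion mino := by
        intro b _
        obtain ⟨c, hc, hb⟩ := h b
        exact mem_biUnion.2 ⟨c, hc, hb⟩
      have h2 := (card_le_card h1).trans card_biUnion_le
      rw [card_univ, Fintype.card_fin] at h2
      calc 2 * n ≤ 2 * ∑ c ∈ S', (mino c).card := by omega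
        _ = ∑ c ∈ S', 2 * (mino c).card := by rw [mul_sum]
        _ ≤ ∑ c ∈ S', (n - 2) := sum_le_sum (fun c _ => by have := hmc c; omega)
        _ = S'.card * (n - 2) := by rw [sum_const, smul_eq_mul]
    have hS3 : 2 < S.card := by
      by_contra hle
      push Not at hle
      have h1 := hcov S hS.prop
      have h2 : S.card * (n - 2) ≤ 2 * (n - 2) := Nat.mul_le_mul_right _ hle
      omega
    obtain ⟨c1, h1, c2, h2, c3, h3, h12, h13, h23⟩ := two_lt_card.1 hS3
    -- `x` and `y` are private to two of the colourings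
    have hT := htri c1 h1 c2 h2 c3 h3 h12 h13 h23 _ _ _ (hp c1 h1) (hp c2 h2) (hp c3 h3)
    have hx : ∃ c ∈ S, Pr c x := by
      rcases hT.1 with h | h | h
      · exact ⟨c1, h1, by rw [h]; exact hp c1 h1⟩
      · exact ⟨c2, h2, by rw [h]; exact hp c2 h2⟩
      · exact ⟨c3, h3, by rw [h]; exact hp c3 h3⟩
    have hy : ∃ c ∈ S, Pr c y := by
      rcases hT.2 with h | h | h
      · exact ⟨c1, h1, by rw [h]; exact hp c1 h1⟩
      · exact ⟨c2, h2, by rw [h]; exact hp c2 h2⟩
      · exact ⟨c3, h3, by rw [h]; exact hp c3 h3⟩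
    obtain ⟨cx, hcx, hPx⟩ := hx
    obtain ⟨cy, hcy, hPy⟩ := hy
    have hcxy : cx ≠ cy := by
      intro he
      subst he
      -- two other colourings
      have h4 : 1 < (S.erase cx).card := by rw [card_erase_of_mem hcx]; omega
      obtain ⟨u, hu, v, hv, huv⟩ := one_lt_card.1 h4
      obtain ⟨hu1, hu2⟩ := mem_erase.1 hu
      obtain ⟨hv1, hv2⟩ := mem_erase.1 hv
      have := (htri cx hcx u hu2 v hv2 hu1.symm hv1.symm huv _ _ _ hPx (hp u hu2) (hp v hv2)).2
      rcases this with h | h | h
      · exact hxy h.symm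
      · exact hne cx hcx u hu2 hu1.symm _ _ hPy (hp u hu2) h
      · exact hne cx hcx v hv2 hv1.symm _ _ hPy (hp v hv2) h
    -- a third colouring
    have h4 : 0 < ((S.erase cx).erase cy).card := by
      rw [card_erase_of_mem (mem_erase.2 ⟨hcxy.symm, hcy⟩), card_erase_of_mem hcx]; omega
    obtain ⟨cz, hcz⟩ := card_pos.1 h4
    obtain ⟨hzy, hcz'⟩ := mem_erase.1 hcz
    obtain ⟨hzx, hczS⟩ := mem_erase.1 hcz'
    -- there is no fourth one
    have hall : ∀ c ∈ S, c = cx ∨ c = cy ∨ c = cz := by
      intro w hw
      by_contra hno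
      push Not at hno
      obtain ⟨hwx, hwy, hwz⟩ := hno
      have := (htri cx hcx cz hczS w hw hzx.symm hwx.symm hwz.symm _ _ _ hPx (hp cz hczS)
        (hp w hw)).2
      rcases this with h | h | h
      · exact hxy h.symm
      · exact hne cy hcy cz hczS hzy.symm _ _ hPy (hp cz hczS) h
      · exact hne cy hcy w hw hwy.symm _ _ hPy (hp w hw) h
    -- all balls but `y` are in the minority of `cx` or `cz`
    have hcover : ∀ b, b ≠ y → b ∈ mino cx ∪ mino cz := by
      intro b hby
      by_contra hno
      rw [mem_union] at hno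
      push Not at hno
      have hPb : Pr cy b := by
        obtain ⟨c, hc, hb⟩ := hS.prop b
        rcases hall c hc with rfl | rfl | rfl
        · exact absurd hb hno.1
        · refine ⟨hb, fun c' hc' hne' => ?_⟩
          rcases hall c' hc' with rfl | rfl | rfl
          · exact hno.1
          · exact absurd rfl hne'
          · exact hno.2
        · exact absurd hb hno.2
      have := (htri cx hcx cy hcy cz hczS hcxy hzx.symm hzy.symm _ _ _ hPx hPb
        (hp cz hczS)).2
      rcases this with h | h | h
      · exact hxy h.symm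
      · exact hby h.symm
      · exact hne cy hcy cz hczS hzy.symm _ _ hPy (hp cz hczS) h
    have h5 : (univ.erase y : Finset (Fin n)) ⊆ mino cx ∪ mino cz := by
      intro b hb
      exact hcover b (mem_erase.1 hb).1
    have h6 := card_le_card h5
    rw [card_erase_of_mem (mem_univ _), card_univ, Fintype.card_fin] at h6
    have h7 := card_union_le (mino cx) (mino cz)
    have h8 := hmc cx
    have h9 := hmc cz
    omega
  choose f hf using key
  exact ⟨f, fun c α h => hf α c h⟩

/-- For every even `n ≥ 4` we have `m(n) = 0`. So there is no constant `C` with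
`|m(n) - n / 2| ≤ C` for all `n ≥ 3`. -/
theorem result : (∀ n : ℕ, Even n → 4 ≤ n →
      (∃ Q : Finset (Finset (Fin n)), IsQuerySet Q ∧ Determines Q ∧ minCoDegree Q = 0) ∧
      m n = 0) ∧
    ¬ ∃ C : ℝ, ∀ n : ℕ, 3 ≤ n → |(m n : ℝ) - n / 2| ≤ C := by
  have h1 : ∀ n : ℕ, Even n → 4 ≤ n →
      (∃ Q : Finset (Finset (Fin n)), IsQuerySet Q ∧ Determines Q ∧ minCoDegree Q = 0) := by
    intro n hn hn4
    let x : Fin n := ⟨0, by omega⟩
    let y : Fin n := ⟨1, by omega⟩
    have hxy : x ≠ y := by simp [x, y]
    refine ⟨_, ?_, determines hn hn4 x y hxy, ?_⟩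
    · intro T hT
      exact (mem_filter.1 hT).2.1
    · unfold minCoDegree
      rw [Nat.sInf_eq_zero]
      left
      refine ⟨x, y, hxy, ?_⟩
      unfold coDegree
      rw [card_eq_zero, filter_eq_empty_iff]
      intro T hT
      exact (mem_filter.1 hT).2.2
  have h2 : ∀ n : ℕ, Even n → 4 ≤ n → m n = 0 := by
    intro n hn hn4
    unfold m
    rw [Nat.sInf_eq_zero]
    exact Or.inl (h1 n hn hn4)
  refine ⟨fun n hn hn4 => ⟨h1 n hn hn4, h2 n hn hn4⟩, ?_⟩
  rintro ⟨C, hC⟩
  obtain ⟨k, hk⟩ := exists_nat_gt (max C 2)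
  have hk2 : (2 : ℝ) < k := lt_of_le_of_lt (le_max_right _ _) hk
  have hkC : C < k := lt_of_le_of_lt (le_max_left _ _) hk
  have hk2' : 2 < k := by exact_mod_cast hk2
  have h3 := hC (2 * k) (by omega)
  rw [h2 (2 * k) (even_two_mul k) (by omega)] at h3
  push_cast at h3
  rw [show (0 : ℝ) - 2 * (k : ℝ) / 2 = -(k : ℝ) by ring, abs_neg, abs_of_nonneg (by positivity)]
    at h3
  linarith

end Pool.Agent.Results.MP_d92cd9_co.EvenZero
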